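import Pool.Agent.Helper77.RL.Goals3
import Pool.Agent.Helper60.RD.BEX

/-!
# Project RL (MP_fc6b1e_nt), packet X_BEJ: choice of `b` for a divisor
-/

namespace Pool.Agent.Helper69.RL

open NumberField Polynomial Module IsDedekindDomain
open Pool.Agent.Helper51.RP
open Pool.Agent.Helper40.RS (bel lies bel_smul gw gw_inj free_gw absNorm_free val_count
  absNorm_one_le)
open Pool.Agent.Helper38.RS (pz S_PSM)
open Pool.Agent.Helper60.RD (dv dv_mul dv_prime dv_apply Gen span_gen tail Hm)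
open UniqueFactorizationMonoid

section red

variable {K : Type} [Field K] [NumberField K] (p : ℕ)

/-- The reduction modulo `p` of a divisor. -/
noncomputable def rd (D : HeightOneSpectrum (𝓞 K) →₀ ℤ) : Ideal (𝓞 K) →₀ ZMod p :=
  D.sum fun v n => Finsupp.single v.asIdeal (n : ZMod p)

theorem rd_apply (D : HeightOneSpectrum (𝓞 K) →₀ ℤ) (Q : HeightOneSpectrum (𝓞 K)) :
    rd p D Q.asIdeal = (D Q : ZMod p) := by
  classical
  unfold rd
  rw [Finsupp.sum, Finsupp.finsetSum_apply]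
  have h1 : ∀ v ∈ D.support, (Finsupp.single v.asIdeal ((D v : ℤ) : ZMod p)) Q.asIdeal =
      if v = Q then ((D v : ℤ) : ZMod p) else 0 := by
    intro v _
    rw [Finsupp.single_apply]
    by_cases h : v = Q
    · rw [if_pos h, if_pos (by rw [h])]
    · rw [if_neg h, if_neg (fun h' => h (HeightOneSpectrum.ext h'))]
  rw [Finset.sum_congr rfl h1, Finset.sum_ite_eq']
  split_ifs with h
  · rfl
  · rw [Finsupp.notMem_support_iff] at h
    rw [h, Int.cast_zero]

end red

theorem x_bej (h1 : Pool.Agent.Helper38.RSP.SP_HLF) (h2 : Pool.Agent.Helper38.RS.S_PSM) :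
    Pool.Agent.Helper77.RL.X_BEJ := by
  intro p hp K M _ _ _ _ _ _ _ hgt hp3 𝔫 h𝔫 D
  have hp' : p.Prime := hp.out
  -- the claim
  have hmem : -(rd p D) ∈ Submodule.span (ZMod p) (Gen p 𝔫 (Hm 𝔫 M)) := by
    by_contra hnot
    have hnot' : rd p D ∉ Submodule.span (ZMod p) (Gen p 𝔫 (Hm 𝔫 M)) :=
      fun h => hnot (Submodule.neg_mem _ h)
    obtain ⟨φ, hφ1, hφ2⟩ := Submodule.exists_le_ker_of_notMem hnot'
    have hgen : ∀ x ∈ Gen p 𝔫 (Hm 𝔫 M), φ x = 0 := by
      intro x hx
      exact LinearMap.mem_ker.1 (hφ2 (Submodule.subset_span hx))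
    -- some prime in the support of the divisor
    obtain ⟨v, hφP⟩ : ∃ v : HeightOneSpectrum (𝓞 K),
        φ (Finsupp.single v.asIdeal 1) ≠ 0 := by
      by_contra hno
      push Not at hno
      apply hφ1
      unfold rd
      rw [Finsupp.sum, map_sum]
      apply Finset.sum_eq_zero
      intro w _
      have h3 : Finsupp.single w.asIdeal ((D w : ℤ) : ZMod p) =
          ((D w : ℤ) : ZMod p) • Finsupp.single w.asIdeal (1 : ZMod p) := by
        rw [Finsupp.smul_single, smul_eq_mul, mul_one]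
      rw [h3, map_smul, hno w, smul_zero]
    have hPcop : v.asIdeal ⊔ 𝔫 = ⊤ := by
      by_contra hc
      exact hφP (hgen _ (Or.inl ⟨v.asIdeal, ⟨v, rfl, Or.inl hc⟩, rfl⟩))
    have hpsi : IsPsi p 𝔫 (fun I => φ (dv p I)) := by
      refine ⟨h𝔫, ?_, ?_, ?_⟩
      · intro I J hI hJ _ _
        show φ (dv p (I * J)) = φ (dv p I) + φ (dv p J)
        rw [dv_mul p hI hJ, map_add]
      · intro α hα hα'
        exact hgen _ (Or.inr ⟨α, hα, hα', rfl⟩)
      · refine ⟨v.asIdeal, v.ne_bot, hPcop, ?_⟩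
        show φ (dv p v.asIdeal) ≠ 0
        rw [dv_prime p v]
        exact hφP
    obtain ⟨C, hC⟩ := h1 p K 𝔫 _ hpsi
    refine tail (K := K) (M := M) h2 (κ := 1 - 1 / (p : ℝ)) hC ?_ ?_
    · intro r hr
      by_contra hno
      push Not at hno
      obtain ⟨hr1, hr2⟩ := hr
      apply hr2
      show φ (dv p r.asIdeal) = 0
      rw [dv_prime]
      exact hgen _ (Or.inl ⟨r.asIdeal, ⟨r, rfl, Or.inr hno⟩, rfl⟩)
    · rcases eq_or_ne p 2 with h | h
      · have h3 : (3 : ℝ) ≤ finrank K M := by exact_mod_cast hp3 h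
        rw [h]
        push_cast
        linarith
      · have h3 : (2 : ℝ) ≤ finrank K M := by exact_mod_cast hgt
        have h4 : (3 : ℝ) ≤ p := by
          have : 3 ≤ p := by
            have := hp'.two_le
            omega
          exact_mod_cast this
        have h5 : 1 / (p : ℝ) ≤ 1 / 3 := one_div_le_one_div_of_le (by norm_num) h4
        have h6 : (2 : ℝ) / 3 ≤ 1 - 1 / (p : ℝ) := by linarith
        calc (4 : ℝ) / 3 = 2 * (2 / 3) := by norm_num
          _ ≤ (finrank K M : ℝ) * (1 - 1 / (p : ℝ)) :=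
            mul_le_mul h3 h6 (by norm_num) (by linarith)
  obtain ⟨b, hb0, hbn, hb⟩ := span_gen p 𝔫 (Hm 𝔫 M) _ hmem
  refine ⟨b, hb0, hbn, ?_⟩
  intro W Q hWQ hW hQ
  have hbel : bel K W = Q := HeightOneSpectrum.ext hWQ
  have hQH : Q.asIdeal ∉ Hm 𝔫 M := by
    rintro ⟨r, h3, h4⟩
    have h5 : r = Q := HeightOneSpectrum.ext h3.symm
    subst h5
    rcases h4 with h4 | h4
    · exact h4 hQ
    · exact h4 W hbel hW
  have h3 := hb _ hQH
  rw [Finsupp.neg_apply, rd_apply, dv_apply] at h3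
  have h5 : ordv Q ((b : 𝓞 K) : K) =
      ((normalizedFactors (Ideal.span {b})).count Q.asIdeal : ℤ) := by
    unfold ordv
    have h6 := val_count Q hb0
    have h7 : ((b : 𝓞 K) : K) = algebraMap (𝓞 K) K b := rfl
    rw [h7, h6, WithZero.log_exp, neg_neg]
  rw [h5, ← ZMod.intCast_zmod_eq_zero_iff_dvd]
  push_cast
  rw [← h3, add_neg_cancel]

end Pool.Agent.Helper69.RL
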